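import Mathlib
import Pool.Agent.Q178.Monster.Main

/-!
# Jet identification numbers in the Monster tower, `n ≥ 3` (MP_0d30b1_gt)

For `n ≥ 3` and `k ≥ 2`, no point of `Pᵏ(n)` other than a Cartan point has a jet identification
number.  The Monster tower is described in Kumpera–Ruiz coordinates in
`Pool.Agent.Q178.Monster.Defs`.
-/

set_option autoImplicit false

namespace Pool.Agent.Results.MP_0d30b1_gt.NoJetNumber

open Q178.Monster

/-- **MP_0d30b1_gt, Q1: proved.**  Let `n ≥ 3` and `k ≥ 2`, and let `p ∈ Pᵏ(n)` be a point which is
not a Cartan point.  Then `p` has no jet identification number: there are no `r` and no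
`r`-jet `β` such that `Germ(p)` is the set of all analytic curve germs whose `r`-jet is `β` up to
reparametrization. -/
theorem result (n : ℕ) (hn : 3 ≤ n) (k : ℕ) (_hk : 2 ≤ k) (p : P n k) (hp : ¬ IsCartan p) (r : ℕ) :
    ¬ HasJetIdentificationNumber p r :=
  no_jet_identification_number hn p hp r

end Pool.Agent.Results.MP_0d30b1_gt.NoJetNumber
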